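import Pool.Agent.X246.SRJ.Red

/-!
# The reduction is computable in polynomial time
-/

set_option autoImplicit false

namespace Pool.Agent.NPC.X246SRJ

open Pool.Agent.NPC Pool.Agent.NPC.ER Pool.Agent.NPC.H612

section

variable {α : Type} [TEnc α]

theorem poly_sqraw {R : α → List (Bool × List ℕ)} (hR : Poly R) :
    Poly (fun a => sqraw (R a)) := by
  refine Poly.flatMap (F := fun a (p : Bool × List ℕ) =>
    (R a).map fun q => ((p.1 ^^ q.1), p.2 ++ q.2)) hR ?_
  refine Poly.map (F := fun (s : α × (Bool × List ℕ)) (q : Bool × List ℕ) =>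
    ((s.2.1 ^^ q.1), s.2.2 ++ q.2)) (hR.comp (Poly.fst Poly.id)) ?_
  exact Poly.pair (Poly.xor (Poly.fst (Poly.snd (Poly.fst Poly.id))) (Poly.fst (Poly.snd Poly.id)))
    (Poly.append (Poly.snd (Poly.snd (Poly.fst Poly.id))) (Poly.snd (Poly.snd Poly.id)))

theorem poly_praw {V : α → List ℕ} {S : α → List ER.Con} (hV : Poly V) (hS : Poly S) :
    Poly (fun a => praw (V a) (S a)) :=
  Poly.flatMap (F := fun a c => sqraw (craw (V a) c)) hS
    (poly_sqraw (poly_craw (hV.comp (Poly.fst Poly.id)) (Poly.snd Poly.id)))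

theorem poly_uraw {V : α → List ℕ} {S : α → List ER.Con} (hV : Poly V) (hS : Poly S) :
    Poly (fun a => uraw (V a) (S a)) := by
  have hl := Poly.length hV
  refine Poly.cons (Poly.pair (Poly.const false) (Poly.cons hl (Poly.cons (Poly.succ hl)
    (Poly.const [])))) ?_
  exact Poly.map (F := fun _ (t : Bool × List ℕ) => (!t.1, t.2)) (poly_praw hV hS)
    (Poly.pair (Poly.not (Poly.fst (Poly.snd Poly.id))) (Poly.snd (Poly.snd Poly.id)))

theorem poly_vraw {V : α → List ℕ} {S : α → List ER.Con} (hV : Poly V) (hS : Poly S) :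
    Poly (fun a => vraw (V a) (S a)) := by
  have hl := Poly.length hV
  refine Poly.cons (Poly.pair (Poly.const true) (Poly.cons (Poly.succ hl) (Poly.const []))) ?_
  have hl' : Poly (fun q : α × (Bool × List ℕ) => (V q.1).length) := hl.comp (Poly.fst Poly.id)
  exact Poly.map (F := fun a (t : Bool × List ℕ) => (t.1, (V a).length :: (V a).length :: t.2))
    (poly_uraw hV hS) (Poly.pair (Poly.fst (Poly.snd Poly.id))
      (Poly.cons hl' (Poly.cons hl' (Poly.snd (Poly.snd Poly.id)))))

theorem poly_uv {E : α → List ℕ} (hE : Poly E) : Poly (fun a => uv (E a)) :=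
  poly_dedup (Poly.map (F := fun _ i => 2 * i) hE (Poly.mul (Poly.const 2) (Poly.snd Poly.id)))

end

theorem poly_vs : Poly vs :=
  Poly.append (poly_uv (Poly.fst Poly.id)) (poly_varsOf (poly_sysOf (Poly.snd Poly.id)))

theorem poly_inst : Poly inst := by
  have hV := poly_vs
  have hS : Poly (fun p : List ℕ × Fm => sysOf p.2) := poly_sysOf (Poly.snd Poly.id)
  have hn : UPoly (fun p : List ℕ × Fm => (vs p).length + 2) :=
    UPoly.add (UPoly.length hV) (UPoly.const 2)
  have hk : UPoly (fun p : List ℕ × Fm => (uv p.1).length) :=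
    UPoly.length (poly_uv (Poly.fst Poly.id))
  refine Poly.pair hn.toPoly (Poly.append ?_ ?_)
  · refine Poly.map (F := fun (p : List ℕ × Fm) j => collect ((vs p).length + 2) [(false, [j])])
      hk.range ?_
    exact poly_collect (UPoly.comp (n := fun p : List ℕ × Fm => (vs p).length + 2) hn
      (Poly.fst Poly.id)) (Poly.cons (Poly.pair (Poly.const false)
        (Poly.cons (Poly.snd Poly.id) (Poly.const []))) (Poly.const []))
  · exact Poly.cons (poly_collect hn (poly_uraw hV hS))
      (Poly.cons (poly_collect hn (poly_vraw hV hS)) (Poly.const []))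

end Pool.Agent.NPC.X246SRJ
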