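import Pool.Agent.X246.SRJ.Red

/-!
# Membership in `∀∃ℝ`
-/

set_option autoImplicit false

namespace Pool.Agent.NPC.X246SRJ

open Pool.Agent.NPC Pool.Agent.NPC.ER Pool.Agent.NPC.H612

/-- A list whose length bounds the lengths of the exponent vectors and of the exponents. -/
def szL (l : List PolyData) : List Bool :=
  l.flatMap fun p => p.flatMap fun t => t.2.flatMap fun e => true :: e.bits

theorem expo_len {l : List PolyData} {p : PolyData} (hp : p ∈ l) {t : ℤ × List ℕ} (ht : t ∈ p) :
    t.2.length ≤ (szL l).length :=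
  (length_le_flatMap' t.2).trans ((length_le_flatMap (f := fun t : ℤ × List ℕ =>
    t.2.flatMap fun e => true :: e.bits) ht).trans (length_le_flatMap (f := fun p : PolyData =>
    p.flatMap fun t => t.2.flatMap fun e => true :: e.bits) hp))

theorem bits_len {l : List PolyData} {p : PolyData} (hp : p ∈ l) {t : ℤ × List ℕ} (ht : t ∈ p)
    (i : ℕ) : (t.2.getD i 0).bits.length ≤ (szL l).length := by
  by_cases hi : i < t.2.length
  · have h1 : t.2.getD i 0 ∈ t.2 := by
      rw [List.getD_eq_getElem _ _ hi]
      exact List.getElem_mem _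
    have h2 : (t.2.getD i 0).bits.length ≤ (true :: (t.2.getD i 0).bits).length := by simp
    exact h2.trans ((length_le_flatMap (f := fun e : ℕ => true :: e.bits) h1).trans
      ((length_le_flatMap (f := fun t : ℤ × List ℕ =>
      t.2.flatMap fun e => true :: e.bits) ht).trans (length_le_flatMap (f := fun p : PolyData =>
      p.flatMap fun t => t.2.flatMap fun e => true :: e.bits) hp)))
  · rw [List.getD_eq_default _ _ (by omega)]
    simp

/-- The number of relevant coordinates. -/
def nvl (n : ℕ) (l : List PolyData) : ℕ := min n (szL l).length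

/-- The formula: the power variables have the right values and the polynomials have the values
`y₁, …, y_m`. -/
def mf (n : ℕ) (l : List PolyData) : Fm :=
  conj (powEqs (nvl n l) (szL l).length ++
    l.zipIdx.map fun q => Fm.eq (polT (nvl n l) q.1) (Tm.var (vC q.2)))

/-- The universal variables. -/
def mE (l : List PolyData) : List ℕ := (List.range l.length).map vC

theorem vP_notMem (l : List PolyData) (i k : ℕ) : vP i k ∉ mE l := by
  unfold mE
  rw [List.mem_map]
  rintro ⟨j, _, h⟩
  unfold vC vP at h
  omega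

theorem vC_mem {l : List PolyData} {i : ℕ} (hi : i < l.length) : vC i ∈ mE l :=
  List.mem_map.2 ⟨i, List.mem_range.2 hi, rfl⟩

theorem holds_mf {n : ℕ} {l : List PolyData} {w : ℕ → ℝ} {z : Fin n → ℝ}
    (hz : ∀ i < nvl n l, ∀ k ≤ (szL l).length, w (vP i k) = xt z i ^ 2 ^ k) :
    (mf n l).Holds w ↔ ∀ i p, l[i]? = some p → pval z p = w (vC i) := by
  have hp : ∀ p ∈ l, (polT (nvl n l) p).eval w = pval z p := by
    intro p hp
    refine eval_polT w (nvl n l) z p (min_le_left _ _) ?_ ?_
    · intro t ht i hi hin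
      apply List.getD_eq_default
      have h1 := expo_len hp ht
      have h2 : nvl n l = min n (szL l).length := rfl
      omega
    · intro t ht i hi k hk
      exact hz i hi k (hk.le.trans (bits_len hp ht i))
  have h3 : (∀ ψ ∈ powEqs (nvl n l) (szL l).length, ψ.Holds w) := by
    intro ψ hψ
    simp only [powEqs, List.mem_flatMap, List.mem_range, List.mem_map] at hψ
    obtain ⟨i, hi, k, hk, rfl⟩ := hψ
    simp only [Fm.Holds, Tm.eval]
    rw [hz i hi (k + 1) hk, hz i hi k hk.le, pow_succ, pow_mul]
    ring
  unfold mf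
  simp only [holds_conj, List.forall_mem_append, List.forall_mem_map]
  constructor
  · rintro ⟨-, h⟩ i p hip
    have h1 := h (p, i) (by rw [List.mem_zipIdx_iff_getElem?]; exact hip)
    simp only [Fm.Holds, Tm.eval] at h1
    rw [← hp p (List.mem_of_getElem? hip), h1]
  · intro h
    refine ⟨h3, ?_⟩
    rintro ⟨p, i⟩ hq
    rw [List.mem_zipIdx_iff_getElem?] at hq
    simp only [Fm.Holds, Tm.eval]
    rw [hp p (List.mem_of_getElem? hq)]
    exact h i p hq

theorem surj_iff_aer (n : ℕ) (l : List PolyData) :
    Function.Surjective (mapVal l : (Fin n → ℝ) → Fin l.length → ℝ) ↔ AER (mE l, mf n l) := by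
  rw [surj_iff]
  constructor
  · intro h x
    obtain ⟨z, hz⟩ := h fun i => x (vC i)
    let y : ℕ → ℝ := fun v => xt z (Nat.unpair (v / 4)).1 ^ 2 ^ (Nat.unpair (v / 4)).2
    refine ⟨y, ?_⟩
    have eP : ∀ i k, mixv (mE l) x y (vP i k) = xt z i ^ 2 ^ k := by
      intro i k
      unfold mixv
      rw [if_neg (vP_notMem l i k)]
      simp only [y, vP]
      have : (4 * Nat.pair i k + 3) / 4 = Nat.pair i k := by omega
      rw [this, Nat.unpair_pair]
    simp only
    rw [holds_mf fun i _ k _ => eP i k]
    intro i p hip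
    rw [hz i p hip]
    obtain ⟨hi, _⟩ := List.getElem?_eq_some_iff.1 hip
    unfold mixv
    rw [if_pos (vC_mem hi)]
  · intro h t
    obtain ⟨y, hy⟩ := h fun v => t (v / 4)
    simp only at hy
    set w := mixv (mE l) (fun v => t (v / 4)) y with hw
    set z : Fin n → ℝ := fun i => if (i : ℕ) < nvl n l then w (vP i 0) else 0 with hz
    have hnv : nvl n l ≤ n := min_le_left _ _
    have hxt : ∀ i < nvl n l, xt z i = w (vP i 0) := by
      intro i hi
      have : i < n := hi.trans_le hnv
      simp [xt, this, hz, hi]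
    have hpow : ∀ ψ ∈ powEqs (nvl n l) (szL l).length, ψ.Holds w := by
      unfold mf at hy
      simp only [holds_conj, List.forall_mem_append] at hy
      exact hy.1
    have hk : ∀ i < nvl n l, ∀ k ≤ (szL l).length, w (vP i k) = xt z i ^ 2 ^ k := by
      intro i hi k
      induction k with
      | zero => intro _; rw [hxt i hi, pow_zero, pow_one]
      | succ k ih =>
        intro hk
        have h1 := hpow (Fm.eq (Tm.var (vP i (k + 1)))
          (Tm.mul (Tm.var (vP i k)) (Tm.var (vP i k)))) (by
          simp only [powEqs, List.mem_flatMap, List.mem_range, List.mem_map]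
          exact ⟨i, hi, k, hk, rfl⟩)
        simp only [Fm.Holds, Tm.eval] at h1
        rw [h1, ih (by omega), pow_succ, pow_mul]
        ring
    refine ⟨z, fun i p hip => ?_⟩
    rw [(holds_mf hk).1 hy i p hip, hw]
    obtain ⟨hi, _⟩ := List.getElem?_eq_some_iff.1 hip
    unfold mixv
    rw [if_pos (vC_mem hi)]
    change t ((4 * i + 1) / 4) = t i
    congr 1
    omega

/-! ### Polynomial time -/

/-- Boolean test of validity. -/
def validL (n : ℕ) (l : List PolyData) : Bool :=
  l.all fun p => (p.all fun t => decide (t.1 ≠ 0 ∧ t.2.length = n)) &&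
    decide ((p.map Prod.snd).dedup = p.map Prod.snd)

theorem validL_iff (n : ℕ) (l : List PolyData) :
    validL n l = true ↔ ∀ p ∈ l, PolyData.Valid n p := by
  unfold validL PolyData.Valid
  rw [List.all_eq_true]
  refine forall₂_congr fun p _ => ?_
  rw [Bool.and_eq_true, List.all_eq_true, decide_eq_true_eq, List.dedup_eq_self]
  simp only [decide_eq_true_eq]

theorem poly_validL : Poly (fun a : ℕ × List PolyData => validL a.1 a.2) := by
  unfold validL
  refine Poly.all (p := fun (a : ℕ × List PolyData) (p : PolyData) =>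
    (p.all fun t => decide (t.1 ≠ 0 ∧ t.2.length = a.1)) &&
    decide ((p.map Prod.snd).dedup = p.map Prod.snd)) (Poly.snd Poly.id) ?_
  have hp : Poly (fun q : (ℕ × List PolyData) × PolyData => q.2) := Poly.snd Poly.id
  have hm : Poly (fun q : (ℕ × List PolyData) × PolyData => q.2.map Prod.snd) :=
    Poly.map (F := fun _ (t : ℤ × List ℕ) => t.2) hp (Poly.snd (Poly.snd Poly.id))
  refine Poly.and ?_ (Poly.decide_eq (poly_dedup hm) hm)
  refine Poly.all (l := fun q : (ℕ × List PolyData) × PolyData => q.2)
    (p := fun (q : (ℕ × List PolyData) × PolyData) (t : ℤ × List ℕ) =>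
    decide (t.1 ≠ 0 ∧ t.2.length = q.1.1)) hp ?_
  refine Poly.decide_and (Poly.decide_not (Poly.decide_eq (Poly.fst (Poly.snd Poly.id))
    (Poly.const 0))) (Poly.decide_eq (Poly.length (Poly.snd (Poly.snd Poly.id)))
    (Poly.fst (Poly.fst (Poly.fst Poly.id))))

section

variable {α : Type} [TEnc α]

theorem poly_szL {l : α → List PolyData} (h : Poly l) : Poly (fun a => szL (l a)) := by
  unfold szL
  refine Poly.flatMap (F := fun _ (p : PolyData) => p.flatMap fun t => t.2.flatMap fun e =>
    true :: e.bits) h ?_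
  refine Poly.flatMap (l := fun q : α × PolyData => q.2)
    (F := fun _ (t : ℤ × List ℕ) => t.2.flatMap fun e =>
    true :: e.bits) (Poly.snd Poly.id) ?_
  refine Poly.flatMap (l := fun q : (α × PolyData) × (ℤ × List ℕ) => q.2.2)
    (F := fun _ (e : ℕ) => true :: e.bits) (Poly.snd (Poly.snd Poly.id)) ?_
  exact Poly.cons (Poly.const _) (Poly.natBits (Poly.snd Poly.id))

theorem upoly_nvl {n : α → ℕ} {l : α → List PolyData} (hn : Poly n) (h : Poly l) :
    UPoly (fun a => nvl (n a) (l a)) := by
  unfold nvl
  have h1 : UPoly (fun a => (szL (l a)).length) := UPoly.length (poly_szL h)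
  exact UPoly.of_le (Poly.min hn h1.toPoly) h1 fun a => min_le_right _ _

theorem poly_mf {n : α → ℕ} {l : α → List PolyData} (hn : Poly n) (h : Poly l) :
    Poly (fun a => mf (n a) (l a)) := by
  have hm := upoly_nvl hn h
  have hL : UPoly (fun a => (szL (l a)).length) := UPoly.length (poly_szL h)
  unfold mf
  refine poly_conj (Poly.append (poly_powEqs hm hL) ?_)
  refine Poly.map (F := fun a (q : PolyData × ℕ) =>
    Fm.eq (polT (nvl (n a) (l a)) q.1) (Tm.var (vC q.2))) (Poly.zipIdx h) ?_
  exact poly_feq (poly_polT (UPoly.comp hm (Poly.fst Poly.id)) (Poly.fst (Poly.snd Poly.id)))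
    (poly_tvar (poly_vC (Poly.snd (Poly.snd Poly.id))))

theorem poly_mE {l : α → List PolyData} (h : Poly l) : Poly (fun a => mE (l a)) :=
  Poly.map (F := fun _ i => vC i) (UPoly.length h).range (poly_vC (Poly.snd Poly.id))

end

/-- **Membership.** -/
theorem fullSurjectivity_inAER : InAER (lang FullSurjectivity) := by
  refine InAER.of_poly (f := fun a : ℕ × List PolyData =>
    if validL a.1 a.2 = true then (mE a.2, mf a.1 a.2) else (([] : List ℕ), Fm.ff))
    (Poly.ite (Poly.decide_bool poly_validL)
      (Poly.pair (poly_mE (Poly.snd Poly.id)) (poly_mf (Poly.fst Poly.id) (Poly.snd Poly.id)))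
      (Poly.const _)) ?_
  rintro ⟨n, l⟩
  simp only [FullSurjectivity]
  by_cases h : validL n l = true
  · rw [if_pos h]
    have h1 := (validL_iff n l).1 h
    rw [← surj_iff_aer]
    exact ⟨fun h2 => h2.2, fun h2 => ⟨h1, h2⟩⟩
  · rw [if_neg h]
    have h1 : ¬ ∀ p ∈ l, PolyData.Valid n p := fun h' => h ((validL_iff n l).2 h')
    simp only [h1, false_and, false_iff]
    intro h2
    obtain ⟨y, hy⟩ := h2 (fun _ => 0)
    exact lt_irrefl _ hy

end Pool.Agent.NPC.X246SRJ
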