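import Pool.Agent.X246.SRJ.Defs

/-!
# The reduction
-/

set_option autoImplicit false

namespace Pool.Agent.NPC.X246SRJ

open Pool.Agent.NPC Pool.Agent.NPC.ER Pool.Agent.NPC.H612

/-- For all real `u`, `v` there are `p`, `q` with `p q = u` and `u p² - q = v`. -/
theorem exists_pq (u v : ℝ) : ∃ p q : ℝ, p * q = u ∧ u * (p * p) - q = v := by
  by_cases hu : u = 0
  · subst hu
    exact ⟨0, -v, by ring, by ring⟩
  · set w := v / u with hw
    have hc : Continuous fun p : ℝ => p ^ 3 - w * p - 1 := by fun_prop
    have hM : (0 : ℝ) ≤ |w| + 1 := by positivity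
    have h0 : (fun p : ℝ => p ^ 3 - w * p - 1) 0 ≤ 0 := by norm_num
    have h1 : 0 ≤ (fun p : ℝ => p ^ 3 - w * p - 1) (|w| + 1) := by
      have h2 : w * (|w| + 1) ≤ |w| * (|w| + 1) := mul_le_mul_of_nonneg_right (le_abs_self w) hM
      have h3 := abs_nonneg w
      have h4 : 0 ≤ |w| * ((|w| + 1) ^ 2 + 1) := by positivity
      simp only
      nlinarith
    obtain ⟨p, -, hp⟩ := intermediate_value_Icc hM hc.continuousOn ⟨h0, h1⟩
    simp only at hp
    refine ⟨p, u * (p * p) - v, ?_, by ring⟩
    have h5 : w * u = v := by rw [hw]; field_simp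
    have h6 : p * (u * (p * p) - v) = u * (p ^ 3 - w * p - 1) + u := by
      rw [← h5]
      ring
    rw [h6, hp]
    ring

/-- The raw terms of a square. -/
def sqraw (R : List (Bool × List ℕ)) : List (Bool × List ℕ) :=
  R.flatMap fun p => R.map fun q => ((p.1 ^^ q.1), p.2 ++ q.2)

/-- The raw terms of the sum of the squares of the constraints. -/
def praw (V : List ℕ) (S : List ER.Con) : List (Bool × List ℕ) :=
  S.flatMap fun c => sqraw (craw V c)

/-- The raw terms of `p q - P`. -/
def uraw (V : List ℕ) (S : List ER.Con) : List (Bool × List ℕ) :=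
  (false, [V.length, V.length + 1]) :: (praw V S).map fun t => (!t.1, t.2)

/-- The raw terms of `(p q - P) p² - q`. -/
def vraw (V : List ℕ) (S : List ER.Con) : List (Bool × List ℕ) :=
  (true, [V.length + 1]) :: (uraw V S).map fun t => (t.1, V.length :: V.length :: t.2)

theorem rawEval_append (y : ℕ → ℝ) (R R' : List (Bool × List ℕ)) :
    rawEval y (R ++ R') = rawEval y R + rawEval y R' := by
  simp [rawEval]

theorem rawEval_flatMap {α : Type} (y : ℕ → ℝ) (l : List α) (F : α → List (Bool × List ℕ)) :
    rawEval y (l.flatMap F) = (l.map fun a => rawEval y (F a)).sum := by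
  induction l with
  | nil => simp [rawEval]
  | cons a l ih => rw [List.flatMap_cons, rawEval_append, ih]; simp

theorem sgn_xor (a b : Bool) : (sgn (a ^^ b) : ℝ) = sgn a * sgn b := by
  cases a <;> cases b <;> simp [sgn]

theorem rawEval_sqraw (y : ℕ → ℝ) (R : List (Bool × List ℕ)) :
    rawEval y (sqraw R) = rawEval y R ^ 2 := by
  have h1 : ∀ (p : Bool × List ℕ) (R' : List (Bool × List ℕ)),
      rawEval y (R'.map fun q => ((p.1 ^^ q.1), p.2 ++ q.2)) =
        ((sgn p.1 : ℝ) * (p.2.map y).prod) * rawEval y R' := by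
    intro p R'
    induction R' with
    | nil => simp [rawEval]
    | cons q R' ih =>
      have e1 : ∀ (a : Bool × List ℕ) (l : List (Bool × List ℕ)),
          rawEval y (a :: l) = (sgn a.1 : ℝ) * (a.2.map y).prod + rawEval y l := by
        intro a l; simp [rawEval]
      rw [List.map_cons, e1, e1, ih]
      simp only [sgn_xor, List.map_append, List.prod_append]
      ring
  have h : ∀ R' : List (Bool × List ℕ), rawEval y (R'.flatMap fun p => R.map fun q =>
      ((p.1 ^^ q.1), p.2 ++ q.2)) = rawEval y R' * rawEval y R := by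
    intro R'
    induction R' with
    | nil => simp [rawEval]
    | cons p R' ih =>
      rw [List.flatMap_cons, rawEval_append, ih, h1]
      have e1 : rawEval y (p :: R') = (sgn p.1 : ℝ) * (p.2.map y).prod + rawEval y R' := by
        simp [rawEval]
      rw [e1]
      ring
  unfold sqraw
  rw [h, sq]

theorem rawEval_neg (y : ℕ → ℝ) (R : List (Bool × List ℕ)) :
    rawEval y (R.map fun t => (!t.1, t.2)) = - rawEval y R := by
  induction R with
  | nil => simp [rawEval]
  | cons a R ih =>
    have e1 : ∀ (a : Bool × List ℕ) (l : List (Bool × List ℕ)),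
        rawEval y (a :: l) = (sgn a.1 : ℝ) * (a.2.map y).prod + rawEval y l := by
      intro a l; simp [rawEval]
    rw [List.map_cons, e1, e1, ih]
    obtain ⟨b, l⟩ := a
    cases b <;> simp [sgn] <;> ring

theorem rawEval_shift (y : ℕ → ℝ) (k : ℕ) (R : List (Bool × List ℕ)) :
    rawEval y (R.map fun t => (t.1, k :: k :: t.2)) = rawEval y R * (y k * y k) := by
  induction R with
  | nil => simp [rawEval]
  | cons a R ih =>
    have e1 : ∀ (a : Bool × List ℕ) (l : List (Bool × List ℕ)),
        rawEval y (a :: l) = (sgn a.1 : ℝ) * (a.2.map y).prod + rawEval y l := by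
      intro a l; simp [rawEval]
    rw [List.map_cons, e1, e1, ih]
    simp only [List.map_cons, List.prod_cons]
    ring

/-- The sum of the squares of the defects of the constraints. -/
noncomputable def defect (y : ℕ → ℝ) (V : List ℕ) (S : List ER.Con) : ℝ :=
  (S.map fun c => rawEval y (craw V c) ^ 2).sum

theorem rawEval_uraw (y : ℕ → ℝ) (V : List ℕ) (S : List ER.Con) :
    rawEval y (uraw V S) = y V.length * y (V.length + 1) - defect y V S := by
  have e1 : ∀ (a : Bool × List ℕ) (l : List (Bool × List ℕ)),
      rawEval y (a :: l) = (sgn a.1 : ℝ) * (a.2.map y).prod + rawEval y l := by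
    intro a l; simp [rawEval]
  unfold uraw praw defect
  rw [e1, rawEval_neg, rawEval_flatMap]
  simp only [rawEval_sqraw]
  simp [sgn]
  ring

theorem rawEval_vraw (y : ℕ → ℝ) (V : List ℕ) (S : List ER.Con) :
    rawEval y (vraw V S) = (y V.length * y (V.length + 1) - defect y V S) *
      (y V.length * y V.length) - y (V.length + 1) := by
  have e1 : ∀ (a : Bool × List ℕ) (l : List (Bool × List ℕ)),
      rawEval y (a :: l) = (sgn a.1 : ℝ) * (a.2.map y).prod + rawEval y l := by
    intro a l; simp [rawEval]
  unfold vraw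
  rw [e1, rawEval_shift, rawEval_uraw]
  simp [sgn]
  ring

theorem rawEval_craw (y : ℕ → ℝ) (V : List ℕ) (c : ER.Con) :
    rawEval y (craw V c) = 0 ↔ c.Holds (fun i => y (V.idxOf i)) := by
  cases c with
  | one i =>
    simp only [craw, rawEval, sgn, List.map_cons, List.map_nil, List.sum_cons, List.sum_nil,
      List.prod_cons, List.prod_nil, ER.Con.Holds]
    constructor
    · intro h; norm_num at h; linarith
    · intro h; norm_num; linarith
  | add i j k =>
    simp only [craw, rawEval, sgn, List.map_cons, List.map_nil, List.sum_cons, List.sum_nil,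
      List.prod_cons, List.prod_nil, ER.Con.Holds]
    constructor
    · intro h; norm_num at h; linarith
    · intro h; norm_num; linarith
  | mul i j k =>
    simp only [craw, rawEval, sgn, List.map_cons, List.map_nil, List.sum_cons, List.sum_nil,
      List.prod_cons, List.prod_nil, ER.Con.Holds]
    constructor
    · intro h; norm_num at h; linarith
    · intro h; norm_num; linarith

theorem defect_eq_zero (y : ℕ → ℝ) (V : List ℕ) (S : List ER.Con) :
    defect y V S = 0 ↔ SysHolds (fun i => y (V.idxOf i)) S := by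
  unfold defect
  constructor
  · intro h c hc
    rw [← rawEval_craw]
    have h1 : ∀ x ∈ S.map fun c => rawEval y (craw V c) ^ 2, (0 : ℝ) ≤ x := by
      intro x hx
      rw [List.mem_map] at hx
      obtain ⟨c, _, rfl⟩ := hx
      exact sq_nonneg _
    have h2 := List.all_zero_of_le_zero_le_of_sum_eq_zero h1 h
      (List.mem_map_of_mem (f := fun c => rawEval y (craw V c) ^ 2) hc)
    exact pow_eq_zero_iff two_ne_zero |>.1 h2
  · intro h
    apply List.sum_eq_zero
    intro x hx
    rw [List.mem_map] at hx
    obtain ⟨c, hc, rfl⟩ := hx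
    rw [(rawEval_craw y V c).2 (h c hc)]
    ring

/-! ### Indices -/

theorem sqraw_mem {R : List (Bool × List ℕ)} {t : Bool × List ℕ} (h : t ∈ sqraw R) :
    ∃ a ∈ R, ∃ b ∈ R, t.2 = a.2 ++ b.2 := by
  unfold sqraw at h
  rw [List.mem_flatMap] at h
  obtain ⟨a, ha, h⟩ := h
  rw [List.mem_map] at h
  obtain ⟨b, hb, rfl⟩ := h
  exact ⟨a, ha, b, hb, rfl⟩

theorem craw_length (V : List ℕ) (c : ER.Con) : ∀ p ∈ craw V c, p.2.length ≤ 2 := by
  cases c <;> simp [craw]

theorem praw_spec (V : List ℕ) (S : List ER.Con) :
    ∀ t ∈ praw V S, (∀ i ∈ t.2, i < V.length + 2) ∧ t.2.length ≤ 4 := by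
  intro t ht
  unfold praw at ht
  rw [List.mem_flatMap] at ht
  obtain ⟨c, _, ht⟩ := ht
  obtain ⟨a, ha, b, hb, e⟩ := sqraw_mem ht
  rw [e]
  constructor
  · intro i hi
    rcases List.mem_append.1 hi with h | h
    · have := craw_lt V c a ha i h
      omega
    · have := craw_lt V c b hb i h
      omega
  · rw [List.length_append]
    have h1 := craw_length V c a ha
    have h2 := craw_length V c b hb
    omega

theorem uraw_spec (V : List ℕ) (S : List ER.Con) :
    ∀ t ∈ uraw V S, (∀ i ∈ t.2, i < V.length + 2) ∧ t.2.length ≤ 4 := by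
  intro t ht
  unfold uraw at ht
  rcases List.mem_cons.1 ht with rfl | ht
  · constructor
    · intro i hi
      simp only [List.mem_cons, List.not_mem_nil, or_false] at hi
      omega
    · simp
  · rw [List.mem_map] at ht
    obtain ⟨s, hs, rfl⟩ := ht
    exact praw_spec V S s hs

theorem vraw_spec (V : List ℕ) (S : List ER.Con) :
    ∀ t ∈ vraw V S, (∀ i ∈ t.2, i < V.length + 2) ∧ t.2.length ≤ 6 := by
  intro t ht
  unfold vraw at ht
  rcases List.mem_cons.1 ht with rfl | ht
  · constructor
    · intro i hi
      simp only [List.mem_cons, List.not_mem_nil, or_false] at hi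
      omega
    · simp
  · rw [List.mem_map] at ht
    obtain ⟨s, hs, rfl⟩ := ht
    obtain ⟨h1, h2⟩ := uraw_spec V S s hs
    constructor
    · intro i hi
      simp only [List.mem_cons] at hi
      rcases hi with rfl | rfl | hi
      · omega
      · omega
      · exact h1 i hi
    · simp only [List.length_cons]
      omega

/-- All terms of the collected polynomial have degree at most `d` if all raw terms do. -/
theorem collect_deg_le {n d : ℕ} (raw : List (Bool × List ℕ)) (h : ∀ p ∈ raw, ∀ i ∈ p.2, i < n)
    (hd : ∀ p ∈ raw, p.2.length ≤ d) : ∀ t ∈ collect n raw, t.2.sum ≤ d := by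
  intro t ht
  unfold collect at ht
  rw [List.mem_filter] at ht
  obtain ⟨h1, _⟩ := ht
  rw [List.mem_map] at h1
  obtain ⟨e, he, rfl⟩ := h1
  rw [List.mem_dedup, List.map_map, List.mem_map] at he
  obtain ⟨p, hp, rfl⟩ := he
  simp only [Function.comp_def]
  rw [sum_expv p.2 (h p hp)]
  exact hd p hp

/-! ### The instance -/

/-- The universally quantified variables of the system, without repetition. -/
def uv (E : List ℕ) : List ℕ := (E.map fun i => 2 * i).dedup

/-- The variables of the map. -/
def vs (p : List ℕ × Fm) : List ℕ := uv p.1 ++ varsOf (sysOf p.2)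

/-- The instance of the surjectivity problem. -/
def inst (p : List ℕ × Fm) : ℕ × List PolyData :=
  ((vs p).length + 2,
    ((List.range (uv p.1).length).map fun j => collect ((vs p).length + 2) [(false, [j])]) ++
      [collect ((vs p).length + 2) (uraw (vs p) (sysOf p.2)),
        collect ((vs p).length + 2) (vraw (vs p) (sysOf p.2))])

/-- All exponent vectors have sum at most `d`. -/
def DegreeLE (d : ℕ) (l : List PolyData) : Prop := ∀ p ∈ l, ∀ t ∈ p, t.2.sum ≤ d

theorem inst_cases (p : List ℕ × Fm) {q : PolyData} (hq : q ∈ (inst p).2) :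
    ∃ raw : List (Bool × List ℕ), q = collect ((vs p).length + 2) raw ∧
      ((∃ j < (uv p.1).length, raw = [(false, [j])]) ∨ raw = uraw (vs p) (sysOf p.2) ∨
        raw = vraw (vs p) (sysOf p.2)) := by
  unfold inst at hq
  rcases List.mem_append.1 hq with h | h
  · obtain ⟨j, hj, e⟩ := List.mem_map.1 h
    exact ⟨_, e.symm, Or.inl ⟨j, List.mem_range.1 hj, rfl⟩⟩
  · rcases List.mem_cons.1 h with e | h
    · exact ⟨_, e, Or.inr (Or.inl rfl)⟩
    · rw [List.mem_singleton] at h
      exact ⟨_, h, Or.inr (Or.inr rfl)⟩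

theorem inst_valid (p : List ℕ × Fm) : ∀ q ∈ (inst p).2, PolyData.Valid (inst p).1 q := by
  intro q hq
  obtain ⟨raw, e, -⟩ := inst_cases p hq
  rw [e]
  exact collect_valid _ _

theorem uv_le (p : List ℕ × Fm) : (uv p.1).length ≤ (vs p).length := by
  unfold vs
  rw [List.length_append]
  omega

theorem inst_degree (p : List ℕ × Fm) : DegreeLE 6 (inst p).2 := by
  intro q hq
  have hle := uv_le p
  obtain ⟨raw, e, h⟩ := inst_cases p hq
  rw [e]
  have h2 : ∀ t ∈ raw, (∀ i ∈ t.2, i < (vs p).length + 2) ∧ t.2.length ≤ 6 := by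
    rcases h with ⟨j, hj, h⟩ | h | h
    · intro t ht
      rw [h, List.mem_singleton] at ht
      rw [ht]
      refine ⟨fun i hi => ?_, by simp⟩
      rw [List.mem_singleton] at hi
      omega
    · intro t ht
      rw [h] at ht
      exact ⟨(uraw_spec _ _ t ht).1, (uraw_spec _ _ t ht).2.trans (by norm_num)⟩
    · intro t ht
      rw [h] at ht
      exact vraw_spec _ _ t ht
  exact collect_deg_le raw (fun t ht => (h2 t ht).1) fun t ht => (h2 t ht).2

/-- Surjectivity in terms of sequences. -/
theorem surj_iff {n : ℕ} (l : List PolyData) :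
    Function.Surjective (mapVal l : (Fin n → ℝ) → Fin l.length → ℝ) ↔
      ∀ t : ℕ → ℝ, ∃ x : Fin n → ℝ, ∀ i p, l[i]? = some p → pval x p = t i := by
  constructor
  · intro h t
    obtain ⟨x, hx⟩ := h fun i => t i
    refine ⟨x, fun i p hp => ?_⟩
    obtain ⟨hi, e⟩ := List.getElem?_eq_some_iff.1 hp
    have h1 := congrFun hx ⟨i, hi⟩
    simp only [mapVal, List.get_eq_getElem, e] at h1
    exact h1
  · intro h t
    obtain ⟨x, hx⟩ := h fun i => if hi : i < l.length then t ⟨i, hi⟩ else 0
    refine ⟨x, funext fun i => ?_⟩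
    have h1 := hx i (l.get i) (by simp)
    simp only [Fin.is_lt, dif_pos] at h1
    exact h1

theorem append_two {A : List PolyData} {B C : PolyData} {f : ℕ → PolyData → Prop} :
    (∀ i p, (A ++ [B, C])[i]? = some p → f i p) ↔
      (∀ i p, A[i]? = some p → f i p) ∧ f A.length B ∧ f (A.length + 1) C := by
  constructor
  · intro h
    refine ⟨fun i p hp => h i p ?_, h _ _ ?_, h _ _ ?_⟩
    · obtain ⟨hi, _⟩ := List.getElem?_eq_some_iff.1 hp
      rw [List.getElem?_append_left hi]
      exact hp
    · rw [List.getElem?_append_right le_rfl]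
      simp
    · rw [List.getElem?_append_right (by omega)]
      simp
  · rintro ⟨h1, h2, h3⟩ i p hp
    rcases Nat.lt_or_ge i A.length with hi | hi
    · rw [List.getElem?_append_left hi] at hp
      exact h1 i p hp
    · rw [List.getElem?_append_right hi] at hp
      obtain ⟨j, rfl⟩ : ∃ j, i = A.length + j := ⟨i - A.length, by omega⟩
      have e : A.length + j - A.length = j := by omega
      rw [e] at hp
      match j, hp with
      | 0, hp =>
        simp at hp
        subst hp
        exact h2
      | 1, hp =>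
        simp at hp
        subst hp
        exact h3
      | j + 2, hp => simp at hp

theorem pval_raw {n : ℕ} (raw : List (Bool × List ℕ)) (h : ∀ p ∈ raw, ∀ i ∈ p.2, i < n)
    (x : Fin n → ℝ) : pval x (collect n raw) = rawEval (xt x) raw := by
  unfold pval
  exact aeval_collect raw h x

/-- What it means that the instance is surjective. -/
theorem inst_surj (p : List ℕ × Fm) : FullSurjectivity (inst p) ↔
    ∀ t : ℕ → ℝ, ∃ z : Fin ((vs p).length + 2) → ℝ, (∀ j < (uv p.1).length, xt z j = t j) ∧
      xt z (vs p).length * xt z ((vs p).length + 1) - defect (xt z) (vs p) (sysOf p.2) =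
        t (uv p.1).length ∧
      (xt z (vs p).length * xt z ((vs p).length + 1) - defect (xt z) (vs p) (sysOf p.2)) *
        (xt z (vs p).length * xt z (vs p).length) - xt z ((vs p).length + 1) =
        t ((uv p.1).length + 1) := by
  have hle := uv_le p
  have h1 : FullSurjectivity (inst p) ↔
      Function.Surjective (mapVal (inst p).2 : (Fin (inst p).1 → ℝ) → Fin (inst p).2.length → ℝ) :=
    ⟨fun h => h.2, fun h => ⟨inst_valid p, h⟩⟩
  rw [h1, surj_iff]
  refine forall_congr' fun t => ?_
  change (∃ z : Fin ((vs p).length + 2) → ℝ, _) ↔ _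
  refine exists_congr fun z => ?_
  unfold inst
  simp only
  rw [append_two]
  simp only [List.length_map, List.length_range]
  rw [pval_raw _ (fun t ht => (uraw_spec _ _ t ht).1), rawEval_uraw,
    pval_raw _ (fun t ht => (vraw_spec _ _ t ht).1), rawEval_vraw]
  refine and_congr ?_ Iff.rfl
  have h2 : ∀ j < (uv p.1).length, pval z (collect ((vs p).length + 2) [(false, [j])]) =
      xt z j := by
    intro j hj
    rw [pval_raw _ (by
      intro t ht i hi
      simp only [List.mem_cons, List.not_mem_nil, or_false] at ht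
      subst ht
      simp only [List.mem_cons, List.not_mem_nil, or_false] at hi
      omega)]
    simp [rawEval, sgn]
  constructor
  · intro h j hj
    rw [← h2 j hj]
    exact h j _ (by simp [hj])
  · intro h j q hq
    rw [List.getElem?_map, Option.map_eq_some_iff] at hq
    obtain ⟨j', hj', rfl⟩ := hq
    obtain ⟨hj, e⟩ := List.getElem?_eq_some_iff.1 hj'
    rw [List.length_range] at hj
    rw [List.getElem_range] at e
    subst e
    rw [h2 j hj]
    exact h j hj

theorem idx_uv (p : List ℕ × Fm) {e : ℕ} (he : e ∈ uv p.1) : (vs p).idxOf e = (uv p.1).idxOf e := by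
  unfold vs
  exact List.idxOf_append_of_mem he

theorem getD_vs_left (p : List ℕ × Fm) {j : ℕ} (hj : j < (uv p.1).length) :
    (vs p).getD j 0 = (uv p.1).getD j 0 := by
  unfold vs
  rw [List.getD_eq_getElem?_getD, List.getD_eq_getElem?_getD, List.getElem?_append_left hj]

theorem mem_uv {E : List ℕ} {e : ℕ} : e ∈ uv E ↔ ∃ i ∈ E, e = 2 * i := by
  unfold uv
  rw [List.mem_dedup, List.mem_map]
  exact ⟨fun ⟨i, h, e⟩ => ⟨i, h, e.symm⟩, fun ⟨i, h, e⟩ => ⟨i, h, e.symm⟩⟩

/-- **Correctness of the reduction.** -/
theorem aer_iff_inst (p : List ℕ × Fm) : AER p ↔ FullSurjectivity (inst p) := by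
  rw [aer_iff_sys, inst_surj]
  constructor
  · intro h t
    obtain ⟨v, hv, hs⟩ := h fun i => t ((uv p.1).idxOf (2 * i))
    obtain ⟨a, b, hab, hb⟩ := exists_pq (t (uv p.1).length) (t ((uv p.1).length + 1))
    let z : Fin ((vs p).length + 2) → ℝ := fun k =>
      if (k : ℕ) < (vs p).length then v ((vs p).getD k 0)
      else if (k : ℕ) = (vs p).length then a else b
    have hz1 : ∀ j < (vs p).length, xt z j = v ((vs p).getD j 0) := by
      intro j hj
      have hj' : j < (vs p).length + 2 := by omega
      simp only [xt, hj', dif_pos, z, hj, if_true]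
    have hz2 : xt z (vs p).length = a := by
      simp [xt, z]
    have hz3 : xt z ((vs p).length + 1) = b := by
      simp [xt, z]
    have hd : defect (xt z) (vs p) (sysOf p.2) = 0 := by
      rw [defect_eq_zero]
      intro c hc
      refine (ER.Con.holds_congr fun i hi => ?_).2 (hs c hc)
      have hm : i ∈ vs p := List.mem_append_right _ (List.mem_flatMap.2 ⟨c, hc, hi⟩)
      have hlt : (vs p).idxOf i < (vs p).length := List.idxOf_lt_length_iff.2 hm
      rw [hz1 _ hlt, List.getD_eq_getElem?_getD, List.getElem?_eq_getElem hlt]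
      simp
    refine ⟨z, fun j hj => ?_, ?_, ?_⟩
    · rw [hz1 j (by have := uv_le p; omega), getD_vs_left p hj]
      have hm : (uv p.1).getD j 0 ∈ uv p.1 := by
        rw [List.getD_eq_getElem _ _ hj]
        exact List.getElem_mem _
      obtain ⟨i, hi, e⟩ := mem_uv.1 hm
      rw [e, hv i hi, ← e]
      congr 1
      rw [List.getD_eq_getElem _ _ hj]
      exact List.Nodup.idxOf_getElem (List.nodup_dedup _) _ _
    · rw [hz2, hz3, hd, hab, sub_zero]
    · rw [hz2, hz3, hd, hab, sub_zero, hb]
  · intro h x
    obtain ⟨z, h1, h2, h3⟩ := h fun j => if j < (uv p.1).length then x ((uv p.1).getD j 0 / 2) else 0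
    simp only [lt_irrefl, if_false] at h2
    rw [if_neg (by omega), h2, zero_mul, zero_sub, neg_eq_zero] at h3
    rw [h3, mul_zero, zero_sub, neg_eq_zero, defect_eq_zero] at h2
    refine ⟨fun i => xt z ((vs p).idxOf i), fun i hi => ?_, h2⟩
    have hm : 2 * i ∈ uv p.1 := mem_uv.2 ⟨i, hi, rfl⟩
    have hlt := List.idxOf_lt_length_iff.2 hm
    simp only
    rw [idx_uv p hm, h1 _ hlt, if_pos hlt, List.getD_eq_getElem _ _ hlt]
    simp

end Pool.Agent.NPC.X246SRJ
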